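import Pool.Agent.N569.TC.Defs

/-!
# TWA/UN: the unique path which satisfies all the conditions
-/

set_option autoImplicit false

namespace Pool.Agent.N615.TC

open Pool.Agent.N569.TC Finset

variable {m : ℕ} {j : ℤ}

/-- the gaps which are peaks -/
theorem pk_iff {c : ℕ} {L : List It} (hA : Alt m c L) (hF : Full m L) {s : Fin m → Fin 2}
    (hs : ∀ x ∈ L, x.OK s) {i : ℕ} (hi : i + 1 < m) : Pk i s ↔ i % 2 = c := by
  obtain ⟨b, hb⟩ := hF i hi
  have h1 : i + 1 < m ∧ (b = true ↔ i % 2 = c) := hA _ hb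
  have h2 : if b = true then Pk i s else ¬ Pk i s := hs _ hb
  by_cases hbt : b = true
  · rw [if_pos hbt] at h2
    exact ⟨fun _ => h1.2.1 hbt, fun _ => h2⟩
  · rw [if_neg hbt] at h2
    exact ⟨fun h => absurd h h2, fun h => absurd (h1.2.2 h) hbt⟩

/-- TWA/UN (1): at most one path satisfies all conditions -/
theorem OK_unique (c : ℕ) (hc : c < 2) (L : List It) (hA : Alt m c L) (hF : Full m L) (s s' : VV m j)
    (hs : ∀ x ∈ L, x.OK s.1) (hs' : ∀ x ∈ L, x.OK s'.1) : s = s' := by
  apply Subtype.ext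
  have key : ∀ i, i ≤ m → Hh s.1 i = Hh s'.1 i := by
    intro i hi
    obtain ⟨t, ht⟩ : ∃ t, m - i = t := ⟨_, rfl⟩
    induction t generalizing i with
    | zero =>
      rw [Hh_ge s.1 (by omega), Hh_ge s'.1 (by omega)]
    | succ t ih =>
      have h1 := ih (i + 1) (by omega) (by omega)
      have h2 : i < m := by omega
      have a1 := Hh_step s.1 h2
      have a2 := Hh_step s'.1 h2
      by_cases hi0 : i = 0
      · subst hi0
        rw [s.2.2, s'.2.2]
      by_cases him : i + 1 = m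
      · have b1 := s.2.1 i
        have b2 := s'.2.1 i
        have b3 := Hh_ge s.1 (i := i + 1) (by omega)
        have b4 := Hh_ge s'.1 (i := i + 1) (by omega)
        omega
      by_cases hic : i % 2 = c
      · have p1 := (pk_iff hA hF hs (i := i) (by omega)).2 hic
        have p2 := (pk_iff hA hF hs' (i := i) (by omega)).2 hic
        have q1 := p1.1
        have q2 := p2.1
        omega
      · have hic' : (i - 1) % 2 = c := by omega
        have p1 := (pk_iff hA hF hs (i := i - 1) (by omega)).2 hic'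
        have p2 := (pk_iff hA hF hs' (i := i - 1) (by omega)).2 hic'
        have q1 := p1.2
        have q2 := p2.2
        rw [show i - 1 + 2 = i + 1 by omega, show i - 1 + 1 = i by omega] at q1 q2
        omega
  exact Hh_ext fun i hi => key i hi.le

/-- a path from its heights -/
theorem ofH (H : ℕ → ℤ) (h0 : H m = 0)
    (hst : ∀ i, i < m → H i = H (i+1) + 1 ∨ H i = H (i+1) - 1) :
    ∃ s : Fin m → Fin 2, ∀ i, i ≤ m → Hh s i = H i := by
  refine ⟨fun k => if H k = H (k+1) + 1 then 0 else 1, ?_⟩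
  intro i hi
  obtain ⟨t, ht⟩ : ∃ t, m - i = t := ⟨_, rfl⟩
  induction t generalizing i with
  | zero =>
    have : i = m := by omega
    subst this
    rw [Hh_ge _ le_rfl, h0]
  | succ t ih =>
    have h1 := ih (i + 1) (by omega) (by omega)
    have h2 : i < m := by omega
    rw [Hh_lt _ h2, h1]
    rcases hst i h2 with h3 | h3
    · have e : (if H i = H (i+1) + 1 then (0 : Fin 2) else 1) = 0 := if_pos h3
      simp only [e]
      unfold st
      rw [if_pos rfl, h3]
      ring
    · have h4 : ¬ (H i = H (i+1) + 1) := by omega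
      have e : (if H i = H (i+1) + 1 then (0 : Fin 2) else 1) = 1 := if_neg h4
      simp only [e]
      unfold st
      rw [if_neg (by decide), h3]
      ring

/-- the common part of the two cases -/
theorem build (hm : 3 ≤ m) (c : ℕ) (L : List It) (hA : Alt m c L) (H : ℕ → ℤ) (h0 : H m = 0)
    (hst : ∀ i, i < m → H i = H (i+1) + 1 ∨ H i = H (i+1) - 1) (hnn : ∀ i, i ≤ m → 0 ≤ H i)
    (hH0 : H 0 = (m : ℤ) % 2)
    (hpk : ∀ i, i + 1 < m → ((H i < H (i+1) ∧ H (i+2) < H (i+1)) ↔ i % 2 = c))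
    (htw : ∀ n, n ≤ m → (∀ g, g + n + 1 = m → g % 2 ≠ c) → H (m - n) = (n : ℤ) % 2)
    (h2 : 0 ≤ H (m - 3) + H (m - 1) - H (m - 2)) :
    ∃ s t : VV m ((m : ℤ) % 2), (∀ x ∈ L, x.OK s.1) ∧ t.1 = fl (m - 3) s.1 ∧
      (∀ i, i ≤ m → Hh s.1 i = H i) ∧ (∀ i, i ≤ m → i ≠ m - 2 → Hh t.1 i = H i) ∧
      Hh t.1 (m - 2) = H (m - 3) + H (m - 1) - H (m - 2) := by
  obtain ⟨s, hs⟩ := ofH H h0 hst
  have sV : Vd s := by
    intro i
    by_cases hi : i ≤ m
    · rw [hs i hi]; exact hnn i hi
    · rw [Hh_ge s (by omega)]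
  have t1 : ∀ i, i ≤ m → i ≠ m - 2 → Hh (fl (m - 3) s) i = H i := by
    intro i hi hne
    rw [Hh_fl_ne s (by omega), hs i hi]
  have t2 : Hh (fl (m - 3) s) (m - 2) = H (m - 3) + H (m - 1) - H (m - 2) := by
    have := Hh_fl s (i := m - 3) (by omega)
    rw [show m - 3 + 1 = m - 2 by omega, show m - 3 + 2 = m - 1 by omega] at this
    rw [this, hs _ (by omega), hs _ (by omega), hs _ (by omega)]
  have tV : Vd (fl (m - 3) s) := by
    intro i
    by_cases hi : i ≤ m
    · by_cases hne : i = m - 2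
      · rw [hne, t2]; exact h2
      · rw [t1 i hi hne]; exact hnn i hi
    · rw [Hh_ge _ (by omega)]
  refine ⟨⟨s, sV, by rw [hs 0 (by omega), hH0]⟩,
    ⟨fl (m - 3) s, tV, by rw [t1 0 (by omega) (by omega), hH0]⟩, ?_, rfl, hs, t1, t2⟩
  intro x hx
  have hxA := hA x hx
  cases x with
  | letter b i =>
    have h1 : i + 1 < m ∧ (b = true ↔ i % 2 = c) := hxA
    have h3 : Pk i s ↔ i % 2 = c := by
      unfold Pk
      rw [hs i (by omega), hs (i+1) (by omega), hs (i+2) (by omega)]
      exact hpk i h1.1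
    show if b = true then Pk i s else ¬ Pk i s
    by_cases hb : b = true
    · rw [if_pos hb]; exact h3.2 (h1.2.1 hb)
    · rw [if_neg hb]; exact fun h => hb (h1.2.2 (h3.1 h))
  | twist n a =>
    have h1 : n ≤ m ∧ ∀ g, g + n + 1 = m → g % 2 ≠ c := hxA
    show Hh s (m - n) = (n : ℤ) % 2
    rw [hs _ (by omega)]
    exact htw n h1.1 h1.2

/-- TWA/UN (2): there is one such path, and the gap `m - 3` can be exchanged, which violates the condition of the
gap `m - 2` -/
theorem OK_exists (c : ℕ) (hc : c < 2) (hm : 3 ≤ m) (L : List It) (hA : Alt m c L) :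
    ∃ s t : VV m ((m : ℤ) % 2), (∀ x ∈ L, x.OK s.1) ∧ t.1 = fl (m - 3) s.1 ∧
      ((m - 3) % 2 = c → Pk (m - 3) s.1 ∧ Vl (m - 3) t.1 ∧ ¬ Pk (m - 2) s.1 ∧ Pk (m - 2) t.1) ∧
      ((m - 3) % 2 ≠ c → Vl (m - 3) s.1 ∧ Pk (m - 3) t.1 ∧ Pk (m - 2) s.1 ∧ ¬ Pk (m - 2) t.1) := by
  have e1 : m - 3 + 1 = m - 2 := by omega
  have e2 : m - 3 + 2 = m - 1 := by omega
  have e3 : m - 2 + 1 = m - 1 := by omega
  have e4 : m - 2 + 2 = m := by omega
  by_cases hcm : (m - 2) % 2 = c
  · obtain ⟨s, t, hOK, hfl, hs, ht, ht2⟩ := build hm c L hA (fun i => ((m : ℤ) - i) % 2) (by simp)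
      (by intro i hi; push_cast; omega)
      (by intro i hi; omega) (by simp)
      (by intro i hi; push_cast; omega)
      (by intro n hn _; omega)
      (by omega)
    refine ⟨s, t, hOK, hfl, fun h => by omega, fun _ => ?_⟩
    have s3 := hs (m - 3) (by omega)
    have s2 := hs (m - 2) (by omega)
    have s1 := hs (m - 1) (by omega)
    have s0 := hs m le_rfl
    have t3 := ht (m - 3) (by omega) (by omega)
    have t1 := ht (m - 1) (by omega) (by omega)
    have t0 := ht m le_rfl (by omega)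
    unfold Pk Vl
    rw [e1, e2, e3, e4]
    omega
  · obtain ⟨s, t, hOK, hfl, hs, ht, ht2⟩ := build hm c L hA
      (fun i => if i = m then 0 else if i = 0 then (m : ℤ) % 2 else
        if ((m : ℤ) - i) % 2 = 1 then 1 else 2) (by simp)
      (by intro i hi; push_cast; split_ifs <;> omega)
      (by intro i hi; split_ifs <;> omega)
      (by split_ifs <;> omega)
      (by intro i hi; push_cast; split_ifs <;> omega)
      (by
        intro n hn hg
        have hg' : n < m → (m - n - 1) % 2 ≠ c := fun h => hg (m - n - 1) (by omega)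
        split_ifs <;> omega)
      (by split_ifs <;> omega)
    refine ⟨s, t, hOK, hfl, fun _ => ?_, fun h => by omega⟩
    have s3 : Hh s.1 (m - 3) = 1 := by
      rw [hs (m - 3) (by omega)]; split_ifs <;> omega
    have s2 : Hh s.1 (m - 2) = 2 := by
      rw [hs (m - 2) (by omega)]; split_ifs <;> omega
    have s1 : Hh s.1 (m - 1) = 1 := by
      rw [hs (m - 1) (by omega)]; split_ifs <;> omega
    have s0 : Hh s.1 m = 0 := Hh_ge s.1 le_rfl
    have t3 : Hh t.1 (m - 3) = 1 := by
      rw [hfl, Hh_fl_ne s.1 (by omega), s3]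
    have t1 : Hh t.1 (m - 1) = 1 := by
      rw [hfl, Hh_fl_ne s.1 (by omega), s1]
    have t0 : Hh t.1 m = 0 := Hh_ge t.1 le_rfl
    have t2 : Hh t.1 (m - 2) = 0 := by
      rw [ht2, ← hs (m - 3) (by omega), ← hs (m - 2) (by omega), ← hs (m - 1) (by omega), s3, s2, s1]
      norm_num
    unfold Pk Vl
    rw [e1, e2, e3, e4, s3, s2, s1, s0, t3, t2, t1, t0]
    norm_num

end Pool.Agent.N615.TC
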