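import Pool.Agent.N569.TC.Defs

/-!
# TWA/FT: the full twist is diagonal in the path representation
-/

set_option autoImplicit false

namespace Pool.Agent.N615.TC

open Pool.Agent.N569.TC Pool.Agent.H891R2.Jones Pool.Agent.TH561 Finset

/-! ### The algebra -/

theorem qq_ne {N : ℕ} (hN : 3 ≤ N) {A : ℂ} (hA : A ≠ 0) (hd : (N : ℂ) = -A^2 - A⁻¹^2) :
    (A ^ 2) ^ 2 ≠ 1 := by
  intro h
  have h1 : (A ^ 2 - 1) * (A ^ 2 + 1) = 0 := by linear_combination h
  have h2 : A⁻¹ ^ 2 = A ^ 2 := by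
    have h3 : A⁻¹ ^ 2 * (A ^ 2) = 1 := by
      rw [← mul_pow, inv_mul_cancel₀ hA, one_pow]
    calc A⁻¹ ^ 2 = A⁻¹ ^ 2 * ((A ^ 2) ^ 2) := by rw [h, mul_one]
      _ = (A⁻¹ ^ 2 * (A ^ 2)) * A ^ 2 := by ring
      _ = A ^ 2 := by rw [h3, one_mul]
  rw [h2] at hd
  rcases mul_eq_zero.1 h1 with h3 | h3
  · have h4 : (N : ℂ) + 2 = 0 := by linear_combination hd - 2 * h3
    have h5 : ((N + 2 : ℕ) : ℂ) = 0 := by push_cast; exact h4
    have := Nat.cast_eq_zero.1 h5
    omega
  · have h4 : (N : ℂ) = (2 : ℕ) := by push_cast; linear_combination hd - 2 * h3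
    have := Nat.cast_injective h4
    omega

/-- the closed form of the Chebyshev polynomials -/
theorem qn_eq {N : ℕ} {A : ℂ} (hA : A ≠ 0) (hd : (N : ℂ) = -A^2 - A⁻¹^2) (n : ℕ) :
    FP.qn (N : ℂ) n * (A ^ 2 - A⁻¹ ^ 2) = -(-1) ^ n * ((A ^ 2) ^ n - (A⁻¹ ^ 2) ^ n) := by
  have hi : A ^ 2 * A⁻¹ ^ 2 = 1 := by rw [← mul_pow, mul_inv_cancel₀ hA, one_pow]
  have key : ∀ n, FP.qn (N : ℂ) n * (A ^ 2 - A⁻¹ ^ 2) = -(-1) ^ n * ((A ^ 2) ^ n - (A⁻¹ ^ 2) ^ n) ∧
      FP.qn (N : ℂ) (n+1) * (A ^ 2 - A⁻¹ ^ 2) =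
        -(-1) ^ (n+1) * ((A ^ 2) ^ (n+1) - (A⁻¹ ^ 2) ^ (n+1)) := by
    intro n
    induction n with
    | zero =>
      constructor
      · simp [FP.qn]
      · simp [FP.qn]
    | succ n ih =>
      refine ⟨ih.2, ?_⟩
      rw [FP.qn, sub_mul, mul_assoc, ih.1, ih.2, hd]
      generalize A ^ 2 = q at *
      generalize A⁻¹ ^ 2 = r at *
      have e1 : q * r ^ (n+1) = r ^ n := by rw [pow_succ']; linear_combination r ^ n * hi
      have e2 : r * q ^ (n+1) = q ^ n := by rw [pow_succ']; linear_combination q ^ n * hi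
      rw [pow_succ q (n+1), pow_succ r (n+1), pow_succ (-1 : ℂ) (n+1), pow_succ (-1 : ℂ) n]
      linear_combination (-1 : ℂ) ^ n * (e1 - e2)
  exact (key n).1

/-- the eigenvalue identities -/
theorem key {N : ℕ} (hN : 3 ≤ N) {A : ℂ} (hA : A ≠ 0) (hd : (N : ℂ) = -A^2 - A⁻¹^2) {h : ℤ}
    (hh : 0 ≤ h) :
    (A ^ (2 * h) + A ^ (-2 * h - 4) + A⁻¹ ^ 2 * (A ^ (2 * h) * (De N (h+1) / De N h) +
      A ^ (-2 * h - 4) * (De N (h-1) / De N h)) = 0) ∧
    (A ^ 2 * A ^ (2 * h) + 2 * A ^ (2 * h) * (De N (h+1) / De N h) +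
      A⁻¹ ^ 2 * ((De N (h+1) / De N h) * (A ^ (2 * h) * (De N (h+1) / De N h) +
      A ^ (-2 * h - 4) * (De N (h-1) / De N h))) = A ^ (-2 * (h+1) - 4)) ∧
    (A ^ 2 * A ^ (-2 * h - 4) + 2 * A ^ (-2 * h - 4) * (De N (h-1) / De N h) +
      A⁻¹ ^ 2 * ((De N (h-1) / De N h) * (A ^ (2 * h) * (De N (h+1) / De N h) +
      A ^ (-2 * h - 4) * (De N (h-1) / De N h))) = A ^ (2 * (h-1))) := by
  obtain ⟨n, rfl⟩ := Int.eq_ofNat_of_zero_le hh
  have hq := qq_ne hN hA hd
  have hDe0 : De N (n : ℤ) ≠ 0 := De_ne hN hh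
  have d1 : De N ((n : ℤ) + 1) = FP.qn (N : ℂ) (n + 2) := by
    unfold De; congr 1
  have d2 : De N ((n : ℤ) - 1) = FP.qn (N : ℂ) n := by
    unfold De; congr 1; omega
  have d3 : De N (n : ℤ) = FP.qn (N : ℂ) (n + 1) := by
    unfold De; congr 1
  have q1 := qn_eq hA hd (n + 2)
  have q2 := qn_eq hA hd n
  have q3 := qn_eq hA hd (n + 1)
  rw [← d1] at q1
  rw [← d2] at q2
  rw [← d3] at q3
  have hA2 : A ^ 2 ≠ 0 := pow_ne_zero 2 hA
  -- powers
  obtain ⟨q, hqdef⟩ : ∃ q, A ^ 2 = q := ⟨_, rfl⟩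
  obtain ⟨P, hPdef⟩ : ∃ P, (A ^ 2) ^ (n + 1) = P := ⟨_, rfl⟩
  have hq0 : q ≠ 0 := hqdef ▸ hA2
  have hP0 : P ≠ 0 := hPdef ▸ pow_ne_zero _ hA2
  have hinv : A⁻¹ ^ 2 = q⁻¹ := by rw [inv_pow, hqdef]
  have x1 : A ^ (2 * (n : ℤ)) = P / q := by
    rw [eq_div_iff hq0, ← hPdef, ← hqdef, zpow_mul]
    have : A ^ (2 : ℤ) = A ^ 2 := by norm_cast
    rw [this, zpow_natCast, ← pow_succ]
  have z2 : A ^ (2 : ℤ) = q := by rw [← hqdef]; norm_cast
  have x2 : A ^ (-2 * (n : ℤ) - 4) = 1 / (P * q) := by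
    have : (-2 * (n : ℤ) - 4) = -(2 * (n : ℤ) + 2 + 2) := by ring
    rw [this, zpow_neg, zpow_add₀ hA, zpow_add₀ hA, x1, z2]
    field_simp
  have x3 : A ^ (-2 * ((n : ℤ) + 1) - 4) = 1 / (P * q ^ 2) := by
    have : (-2 * ((n : ℤ) + 1) - 4) = -(2 * (n : ℤ) + 2 + 2 + 2) := by ring
    rw [this, zpow_neg, zpow_add₀ hA, zpow_add₀ hA, zpow_add₀ hA, x1, z2]
    field_simp
  have x4 : A ^ (2 * ((n : ℤ) - 1)) = P / q ^ 2 := by
    have : (2 * ((n : ℤ) - 1)) = 2 * (n : ℤ) - 2 := by ring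
    rw [this, zpow_sub₀ hA, x1, z2]
    field_simp
  have hP2 : P ^ 2 ≠ 1 := by
    intro h
    have : De N (n : ℤ) * (q - q⁻¹) = 0 := by
      rw [hinv, hqdef] at q3
      rw [q3]
      have h5 : (q⁻¹) ^ (n + 1) = P := by
        rw [inv_pow, ← hqdef, hPdef]
        field_simp
        linear_combination -h
      rw [h5, ← hqdef, hPdef]
      ring
    rcases mul_eq_zero.1 this with h6 | h6
    · exact hDe0 h6
    · apply hq
      rw [hqdef]
      have h7 : q = q⁻¹ := by linear_combination h6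
      have h8 : q * q = 1 := by
        nth_rewrite 2 [h7]
        exact mul_inv_cancel₀ hq0
      rw [pow_two]; exact h8
  have hP2' : P ^ 2 - 1 ≠ 0 := sub_ne_zero.2 hP2
  have hqq' : q - q⁻¹ ≠ 0 := by
    intro h6
    apply hq
    rw [hqdef]
    have h7 : q = q⁻¹ := by linear_combination h6
    have h8 : q * q = 1 := by
      nth_rewrite 2 [h7]
      exact mul_inv_cancel₀ hq0
    rw [pow_two]; exact h8
  have pI : ∀ k : ℕ, (q⁻¹) ^ k = (q ^ k)⁻¹ := fun k => inv_pow q k
  have hPq : q ^ (n + 1) = P := by rw [← hPdef, hqdef]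
  have hPn : q ^ n = P / q := by rw [eq_div_iff hq0, ← pow_succ, hPq]
  have hPn2 : q ^ (n + 2) = P * q := by rw [← hPq, ← pow_succ]
  rw [hinv, hqdef, pI, hPn2] at q1
  rw [hinv, hqdef, pI, hPn] at q2
  rw [hinv, hqdef, pI, hPq] at q3
  have sgn : ((-1 : ℂ) ^ n) * (-1) ^ n = 1 := by rw [← mul_pow]; norm_num
  have sgn0 : ((-1 : ℂ) ^ n) ≠ 0 := pow_ne_zero _ (by norm_num)
  have D1 : De N ((n : ℤ) + 1) / De N (n : ℤ) = -(q ^ 2 * P ^ 2 - 1) / (q * (P ^ 2 - 1)) := by
    have r1 : De N ((n : ℤ) + 1) = -(-1) ^ (n + 2) * (P * q - (P * q)⁻¹) / (q - q⁻¹) := by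
      rw [eq_div_iff hqq']; exact q1
    have r3 : De N (n : ℤ) = -(-1) ^ (n + 1) * (P - P⁻¹) / (q - q⁻¹) := by
      rw [eq_div_iff hqq']; exact q3
    have hPP : P - P⁻¹ = (P ^ 2 - 1) / P := by field_simp
    rw [r1, r3, div_div_div_cancel_right₀ hqq', hPP, pow_succ, pow_succ]
    have e : P * q - (P * q)⁻¹ = (q ^ 2 * P ^ 2 - 1) / (q * P) := by field_simp
    rw [e]
    field_simp
  have D2 : De N ((n : ℤ) - 1) / De N (n : ℤ) = -(P ^ 2 - q ^ 2) / (q * (P ^ 2 - 1)) := by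
    have r1 : De N ((n : ℤ) - 1) = -(-1) ^ n * (P / q - (P / q)⁻¹) / (q - q⁻¹) := by
      rw [eq_div_iff hqq']; exact q2
    have r3 : De N (n : ℤ) = -(-1) ^ (n + 1) * (P - P⁻¹) / (q - q⁻¹) := by
      rw [eq_div_iff hqq']; exact q3
    have hPP : P - P⁻¹ = (P ^ 2 - 1) / P := by field_simp
    rw [r1, r3, div_div_div_cancel_right₀ hqq', hPP, pow_succ]
    have e : P / q - (P / q)⁻¹ = (P ^ 2 - q ^ 2) / (q * P) := by field_simp
    rw [e]
    field_simp
  rw [x3, x4, x1, x2, hinv, D1, D2, hqdef]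
  refine ⟨?_, ?_, ?_⟩
  · field_simp
    ring
  · field_simp
    ring
  · field_simp
    ring

/-! ### One strand around the others -/

open Classical in
/-- the eigenvalue of `LL` -/
noncomputable def ev {m : ℕ} (A : ℂ) (s : Fin m → Fin 2) (k : ℕ) : ℂ :=
  if Hh s k = Hh s (k+1) + 1 then A ^ (2 * Hh s (k+1)) else A ^ (-2 * Hh s (k+1) - 4)

variable {m : ℕ}

/-- the exchange keeps the property of being mixed -/
theorem fl_mixed {k : ℕ} {s : Fin m → Fin 2} (h : Hh s k = Hh s (k+2)) :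
    Hh (fl k s) k = Hh (fl k s) (k+2) := by
  rw [Hh_fl_ne s (by omega), Hh_fl_ne s (by omega), h]

theorem JJ_of_not {N k : ℕ} {t s : Fin m → Fin 2} (h : ¬ (Vd t ∧ Vd s)) : JJ m N k t s = 0 := by
  unfold JJ
  rw [Matrix.of_apply, if_neg]
  exact fun h' => h ⟨h'.2.1, h'.2.2.1⟩

theorem JJ_flat {N k : ℕ} {t s : Fin m → Fin 2} (h : Hh s k ≠ Hh s (k+2)) : JJ m N k t s = 0 := by
  unfold JJ
  rw [Matrix.of_apply, if_neg]
  exact fun h' => h h'.2.2.2.1

theorem JJ_far {N k : ℕ} {t s : Fin m → Fin 2} (h1 : t ≠ s) (h2 : t ≠ fl k s) :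
    JJ m N k t s = 0 := by
  unfold JJ
  rw [Matrix.of_apply, if_neg]
  intro h'
  rcases h'.2.2.2.2 with h3 | h3
  · exact h1 h3
  · exact h2 h3

/-- the entries of the generator on a pair -/
theorem JJ_pair {N k : ℕ} (hk : k + 1 < m) {t s : Fin m → Fin 2} (hs : Vd s)
    (h : Hh s k = Hh s (k+2)) (hts : t = s ∨ t = fl k s) :
    JJ m N k t s = De N (Hh t (k+1)) / De N (Hh s (k+2)) := by
  by_cases ht : Vd t
  · unfold JJ
    rw [Matrix.of_apply, if_pos ⟨hk, ht, hs, h, hts⟩]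
  · rw [JJ_of_not (fun h' => ht h'.1)]
    rcases hts with h1 | h1
    · exact absurd (h1 ▸ hs) ht
    · have h2 : Hh t (k+1) < 0 := by
        by_contra hc
        push Not at hc
        apply ht
        intro i
        by_cases hi : i = k + 1
        · rw [hi]; exact hc
        · rw [h1, Hh_fl_ne s hi]; exact hs i
      rw [De_neg N h2, zero_div]

theorem fl_ne {k : ℕ} (hk : k + 1 < m) {s : Fin m → Fin 2} (h : Hh s k = Hh s (k+2)) :
    s ≠ fl k s := by
  intro h1
  have h2 := Hh_fl s hk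
  rw [← h1] at h2
  have h3 := Hh_step s (i := k + 1) hk
  rw [show k + 1 + 1 = k + 2 from rfl] at h3
  omega

open Classical in
/-- **one more strand** -/
theorem LL_step {N : ℕ} (hN : 3 ≤ N) {A : ℂ} (hA : A ≠ 0) (hd : (N : ℂ) = -A^2 - A⁻¹^2) {k : ℕ}
    (hk : k + 1 < m) (Lam : Matrix (Fin m → Fin 2) (Fin m → Fin 2) ℂ)
    (hLam : ∀ s, Vd s → ∀ t, Lam t s = if t = s then ev A s (k+1) else 0)
    (s : Fin m → Fin 2) (hs : Vd s) (t : Fin m → Fin 2) :
    (sg A (JJ m N) k * Lam * sg A (JJ m N) k) t s = if t = s then ev A s k else 0 := by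
  set J := JJ m N k with hJ
  have e0 : sg A (JJ m N) k * Lam * sg A (JJ m N) k =
      A ^ 2 • Lam + J * Lam + Lam * J + A⁻¹ ^ 2 • (J * (Lam * J)) := by
    have hAA : A * A⁻¹ = 1 := mul_inv_cancel₀ hA
    have hAA' : A⁻¹ * A = 1 := inv_mul_cancel₀ hA
    unfold sg
    rw [← hJ]
    simp only [add_mul, mul_add, smul_mul_assoc, mul_smul_comm, one_mul, mul_one, smul_smul,
      smul_add, hAA, hAA', one_smul, mul_assoc]
    rw [← pow_two, ← pow_two]
    abel
  have l1 : (J * Lam) t s = J t s * ev A s (k+1) := by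
    rw [Matrix.mul_apply]
    rw [Finset.sum_eq_single s]
    · rw [hLam s hs, if_pos rfl]
    · intro r _ hr
      rw [hLam s hs, if_neg hr, mul_zero]
    · intro h; exact absurd (Finset.mem_univ _) h
  have l2 : ∀ t s, (Lam * J) t s = ev A t (k+1) * J t s := by
    intro t s
    rw [Matrix.mul_apply, Finset.sum_eq_single t]
    · by_cases ht : Vd t
      · rw [hLam t ht, if_pos rfl]
      · rw [hJ, JJ_of_not (fun h' => ht h'.1), mul_zero, mul_zero]
    · intro r _ hr
      by_cases hv : Vd r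
      · rw [hLam r hv, if_neg (fun h => hr h.symm), zero_mul]
      · rw [hJ, JJ_of_not (fun h' => hv h'.1), mul_zero]
    · intro h; exact absurd (Finset.mem_univ _) h
  have l3 : (J * (Lam * J)) t s = ∑ r, J t r * (ev A r (k+1) * J r s) := by
    rw [Matrix.mul_apply]
    exact Finset.sum_congr rfl fun r _ => by rw [l2]
  have e1 : (sg A (JJ m N) k * Lam * sg A (JJ m N) k) t s =
      A ^ 2 * (if t = s then ev A s (k+1) else 0) + J t s * ev A s (k+1) + ev A t (k+1) * J t s +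
        A⁻¹ ^ 2 * ∑ r, J t r * (ev A r (k+1) * J r s) := by
    rw [e0, Matrix.add_apply, Matrix.add_apply, Matrix.add_apply, Matrix.smul_apply,
      Matrix.smul_apply, l1, l2, l3, hLam s hs, smul_eq_mul, smul_eq_mul]
  rw [e1]
  clear e1 e0 l1 l2 l3
  have st1 := Hh_step s (i := k) (by omega)
  have st2 := Hh_step s (i := k + 1) hk
  rw [show k + 1 + 1 = k + 2 from rfl] at st2
  by_cases hm : Hh s k = Hh s (k+2)
  · -- different steps
    have hh0 : 0 ≤ Hh s (k+2) := hs _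
    obtain ⟨h, hh⟩ : ∃ h, Hh s (k+2) = h := ⟨_, rfl⟩
    rw [hh] at hh0
    set s' := fl k s with hs'
    have hne : s ≠ s' := fl_ne hk hm
    have f1 : Hh s' (k+1) = Hh s k + Hh s (k+2) - Hh s (k+1) := Hh_fl s hk
    have f2 : Hh s' (k+2) = Hh s (k+2) := Hh_fl_ne s (by omega)
    have f3 : Hh s' k = Hh s k := Hh_fl_ne s (by omega)
    have f4 : fl k s' = s := fl_fl s k
    have hJs : ∀ r, r = s ∨ r = s' → J r s = De N (Hh r (k+1)) / De N h := by
      intro r hr
      rw [hJ, JJ_pair hk hs hm hr, hh]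
    have hsum : ∀ r', r' = s ∨ r' = s' → ∑ r, J r' r * (ev A r (k+1) * J r s) =
        (De N (Hh r' (k+1)) / De N h) * (ev A s (k+1) * (De N (Hh s (k+1)) / De N h) +
          ev A s' (k+1) * (De N (Hh s' (k+1)) / De N h)) := by
      intro r' hr'
      rw [Fintype.sum_eq_add s s' hne, hJs s (Or.inl rfl), hJs s' (Or.inr rfl), hJs r' hr']
      · by_cases hv : Vd s'
        · have : J r' s' = De N (Hh r' (k+1)) / De N h := by
            rw [hJ, JJ_pair hk hv (by rw [f3, f2, hm]) (by rw [f4]; tauto), f2, hh]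
          rw [this]; ring
        · have h0 : De N (Hh s' (k+1)) / De N h = 0 := by
            rw [← hJs s' (Or.inr rfl), hJ, JJ_of_not (fun h' => hv h'.1)]
          rw [h0]; ring
      · rintro r ⟨hr1, hr2⟩
        rw [hJ, JJ_far hr1 hr2, mul_zero, mul_zero]
    by_cases htp : t = s ∨ t = s'
    · rw [hsum t htp, hJs t htp]
      have K := key hN hA hd hh0
      obtain ⟨K0, K1, K2⟩ := K
      rw [hh] at st2 f1 hm f2
      rw [hm] at st1 f3 f1
      rcases st2 with h2 | h2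
      · -- `s` is the peak
        have g1 : Hh s' (k+1) = h - 1 := by rw [f1, h2]; ring
        have v1 : ev A s (k+1) = A ^ (2 * h) := by
          unfold ev; rw [show k + 1 + 1 = k + 2 from rfl, hh, if_pos h2]
        have v2 : ev A s' (k+1) = A ^ (-2 * h - 4) := by
          unfold ev; rw [show k + 1 + 1 = k + 2 from rfl, f2, if_neg (by omega)]
        have v3 : ev A s k = A ^ (-2 * (h+1) - 4) := by
          unfold ev; rw [hm, if_neg (by omega), h2]
        rcases htp with rfl | rfl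
        · rw [if_pos rfl, if_pos rfl, v1, v2, v3, h2, g1, ← K1]
          ring
        · rw [if_neg hne.symm, if_neg hne.symm, v1, v2, h2, g1]
          linear_combination (De N (h-1) / De N h) * K0
      · have g1 : Hh s' (k+1) = h + 1 := by rw [f1, h2]; ring
        have v1 : ev A s (k+1) = A ^ (-2 * h - 4) := by
          unfold ev; rw [show k + 1 + 1 = k + 2 from rfl, hh, if_neg (by omega)]
        have v2 : ev A s' (k+1) = A ^ (2 * h) := by
          unfold ev; rw [show k + 1 + 1 = k + 2 from rfl, f2, if_pos g1]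
        have v3 : ev A s k = A ^ (2 * (h-1)) := by
          unfold ev; rw [hm, if_pos (by omega), h2]
        rcases htp with rfl | rfl
        · rw [if_pos rfl, if_pos rfl, v1, v2, v3, h2, g1, ← K2]
          ring
        · rw [if_neg hne.symm, if_neg hne.symm, v1, v2, h2, g1]
          linear_combination (De N (h+1) / De N h) * K0
    · push Not at htp
      have hz : ∀ r, J t r * (ev A r (k+1) * J r s) = 0 := by
        intro r
        by_cases hr : r = s ∨ r = s'
        · have : J t r = 0 := by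
            rw [hJ]
            apply JJ_far
            · rcases hr with rfl | rfl
              · exact htp.1
              · exact htp.2
            · rcases hr with rfl | rfl
              · exact htp.2
              · rw [f4]; exact htp.1
          rw [this, zero_mul]
        · push Not at hr
          rw [hJ, JJ_far hr.1 hr.2, mul_zero, mul_zero]
      rw [Finset.sum_eq_zero fun r _ => hz r, if_neg htp.1, if_neg htp.1, hJ, JJ_far htp.1 htp.2]
      ring
  · -- equal steps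
    have hz : ∀ r, J r s = 0 := fun r => by rw [hJ]; exact JJ_flat hm
    have hz2 : ∑ r, J t r * (ev A r (k+1) * J r s) = 0 := by
      apply Finset.sum_eq_zero
      intro r _
      rw [hz, mul_zero, mul_zero]
    rw [hz2, hz]
    by_cases hts : t = s
    · rw [if_pos hts, if_pos hts]
      have hev : A ^ 2 * ev A s (k+1) = ev A s k := by
        have z2 : A ^ 2 = A ^ (2 : ℤ) := by norm_cast
        unfold ev
        rw [show k + 1 + 1 = k + 2 from rfl]
        rcases st2 with h2 | h2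
        · have h3 : Hh s k = Hh s (k+1) + 1 := by omega
          rw [if_pos h2, if_pos h3, h2, z2, ← zpow_add₀ hA]
          congr 1; ring
        · have h3 : ¬ Hh s k = Hh s (k+1) + 1 := by omega
          have h4 : ¬ Hh s (k+1) = Hh s (k+2) + 1 := by omega
          rw [if_neg h4, if_neg h3, h2, z2, ← zpow_add₀ hA]
          congr 1; ring
      rw [← hev]; ring
    · rw [if_neg hts, if_neg hts]
      ring

open Classical in
theorem LL_eq {N : ℕ} (hN : 3 ≤ N) {A : ℂ} (hA : A ≠ 0) (hd : (N : ℂ) = -A^2 - A⁻¹^2) (n : ℕ) :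
    ∀ k, k + n + 1 = m → ∀ s : Fin m → Fin 2, Vd s → ∀ t,
      LL (sg A (JJ m N)) (n+1) k t s = if t = s then ev A s k else 0 := by
  induction n with
  | zero =>
    intro k hk s hs t
    have h1 : Hh s (k+1) = 0 := Hh_ge s (by omega)
    have h2 : Hh s k = Hh s (k+1) + 1 := by
      have := Hh_step s (i := k) (by omega)
      have := hs k
      omega
    have h3 : ev A s k = 1 := by
      unfold ev
      rw [if_pos h2, h1]
      simp
    rw [h3]
    show (1 : Matrix (Fin m → Fin 2) (Fin m → Fin 2) ℂ) t s = _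
    rw [Matrix.one_apply]
  | succ n ih =>
    intro k hk s hs t
    show (sg A (JJ m N) k * LL (sg A (JJ m N)) (n+1) (k+1) * sg A (JJ m N) k) t s = _
    exact LL_step hN hA hd (by omega) _ (ih (k+1) (by omega)) s hs t

/-! ### The full twist -/

/-- **TWA/FT.** -/
theorem FF_JJ (N : ℕ) (hN : 3 ≤ N) (A : ℂ) (hA : A ≠ 0) (hd : (N : ℂ) = -A^2 - A⁻¹^2) (n : ℕ)
    (hn : n ≤ m) (t s : Fin m → Fin 2) (hs : Vd s) :
    FF (sg A (JJ m N)) n (m - n) t s =
      if t = s then A ^ ((Hh s (m - n)) ^ 2 + 2 * Hh s (m - n) - 3 * (n : ℤ)) else 0 := by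
  classical
  induction n with
  | zero =>
    have h1 : Hh s (m - 0) = 0 := Hh_ge s (by omega)
    show (1 : Matrix (Fin m → Fin 2) (Fin m → Fin 2) ℂ) t s = _
    rw [Matrix.one_apply, h1]
    simp
  | succ n ih =>
    have e1 : m - (n + 1) + 1 = m - n := by omega
    show (FF (sg A (JJ m N)) n (m - (n+1) + 1) * LL (sg A (JJ m N)) (n+1) (m - (n+1))) t s = _
    have ih' := ih (by omega)
    rw [← e1] at ih'
    rw [Matrix.mul_apply, Finset.sum_eq_single s]
    · rw [LL_eq hN hA hd n _ (by omega) s hs s, if_pos rfl, ih']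
      by_cases hts : t = s
      · rw [if_pos hts, if_pos hts]
        have st1 := Hh_step s (i := m - (n+1)) (by omega)
        unfold ev
        rcases st1 with h1 | h1
        · rw [if_pos h1, ← zpow_add₀ hA, h1]
          congr 1
          push_cast
          ring
        · rw [if_neg (by omega), ← zpow_add₀ hA, h1]
          congr 1
          push_cast
          ring
      · rw [if_neg hts, if_neg hts, zero_mul]
    · intro r _ hr
      rw [LL_eq hN hA hd n _ (by omega) s hs r, if_neg hr, mul_zero]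
    · intro h; exact absurd (Finset.mem_univ _) h

end Pool.Agent.N615.TC
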